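import Mathlib
import Pool.Agent.H.MP_f8e4dc_lc.BA

namespace Pool.Agent.Results.MP_f8e4dc_lc.No

open FirstOrder FirstOrder.Language Filter Pool.Agent.H.MP_f8e4dc_lc

universe u

section
variable {L : FirstOrder.Language.{0, 0}} {U : Type u} [L.Structure U] {α β : Type}

/-- finitely satisfiable in U -/
def FinSat (p : Set (L.Formula (α ⊕ U))) : Prop :=
  ∀ s : Set (L.Formula (α ⊕ U)), s.Finite → s ⊆ p →
    ∃ v : α → U, ∀ φ ∈ s, φ.Realize (Sum.elim v id)

/-- complete types over U in the variables α -/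
def IsType (p : Set (L.Formula (α ⊕ U))) : Prop := (∀ φ, φ.not ∈ p ↔ φ ∉ p) ∧ FinSat p

def Inv (A : Set U) (p : Set (L.Formula (α ⊕ U))) : Prop :=
  ∀ g : U ≃[L] U, (∀ a ∈ A, g a = a) → ∀ φ, φ.relabel (Sum.map id g) ∈ p ↔ φ ∈ p

def Extends (r : Set (L.Formula ((α ⊕ β) ⊕ U))) (p : Set (L.Formula (α ⊕ U)))
    (q : Set (L.Formula (β ⊕ U))) : Prop :=
  IsType r ∧ (∀ φ ∈ p, φ.relabel (Sum.map Sum.inl id) ∈ r) ∧
    ∀ ψ ∈ q, ψ.relabel (Sum.map Sum.inr id) ∈ r

def WOrth (p : Set (L.Formula (α ⊕ U))) (q : Set (L.Formula (β ⊕ U))) : Prop :=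
  ∃! r, Extends r p q

/-- b realises the restriction of q to B -/
def Sat (q : Set (L.Formula (β ⊕ U))) (B : Set U) (b : β → U) : Prop :=
  ∀ ψ : L.Formula (β ⊕ B), ψ.relabel (Sum.map id Subtype.val) ∈ q →
    ψ.Realize (Sum.elim b Subtype.val)

def IsTensor (A : Set U) (p : Set (L.Formula (α ⊕ U))) (q : Set (L.Formula (β ⊕ U)))
    (r : Set (L.Formula ((α ⊕ β) ⊕ U))) : Prop :=
  IsType r ∧ ∀ (C : Set U) (φ : L.Formula ((α ⊕ β) ⊕ C)) (b : β → U), Sat q (A ∪ C) b →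
    (φ.relabel (Sum.map id Subtype.val) ∈ r ↔
      φ.relabel (Sum.elim (Sum.map id b) fun c => Sum.inr c.1) ∈ p)

variable (L U) in
def Saturated : Prop :=
  ∀ s : Set (L.Formula (Unit ⊕ U)), s.Countable → FinSat s →
    ∃ v : Unit → U, ∀ φ ∈ s, φ.Realize (Sum.elim v id)

variable (L) in
def tp (𝒱 : Ultrafilter (α → U)) : Set (L.Formula (α ⊕ U)) :=
  {φ | ∀ᶠ v in 𝒱.toFilter, φ.Realize (Sum.elim v id)}

theorem tp_type (𝒱 : Ultrafilter (α → U)) : IsType (tp L 𝒱) :=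
  ⟨fun φ => by simp only [tp, Set.mem_ofPred_eq, Formula.realize_not, Ultrafilter.eventually_not],
    fun s hs a => ((eventually_all_finite hs).2 a).exists⟩

theorem type_tp {p : Set (L.Formula (α ⊕ U))} (h : IsType p) : ∃ 𝒱, p = tp L 𝒱 := by
  classical
  choose v hv using fun s : Finset p => h.2 (Subtype.val '' (s : Set p)) (Set.toFinite _)
    (by rintro _ ⟨x, -, rfl⟩; exact x.2)
  let 𝒰 := Ultrafilter.of (atTop : Filter (Finset p))
  have k : ∀ φ ∈ p, φ ∈ tp L (𝒰.map v) := fun φ a => by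
    refine (Ultrafilter.of_le _) ?_
    filter_upwards [eventually_ge_atTop ({⟨φ, a⟩} : Finset p)] with s hs
    exact hv s φ ⟨_, hs (Finset.mem_singleton_self _), rfl⟩
  refine ⟨𝒰.map v, Set.ext fun φ => ⟨k φ, fun a => ?_⟩⟩
  by_contra c
  exact ((tp_type _).1 _).1 (k _ ((h.1 _).2 c)) a

theorem rl (f : β → α) (g : U → U) (φ : L.Formula (β ⊕ U)) (v : α → U) :
    (φ.relabel (Sum.map f g)).Realize (Sum.elim v id) ↔ φ.Realize (Sum.elim (v ∘ f) g) := by
  rw [Formula.realize_relabel, Sum.elim_comp_map]; rfl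

theorem proj {𝒬 : Ultrafilter (β → U)} {𝒱 : Ultrafilter (α → U)} {f : β → α} :
    (∀ φ ∈ tp L 𝒬, φ.relabel (Sum.map f id) ∈ tp L 𝒱) ↔ tp L 𝒬 = tp L (𝒱.map (· ∘ f)) := by
  have k : ∀ φ : L.Formula (β ⊕ U), φ.relabel (Sum.map f id) ∈ tp L 𝒱 ↔
      φ ∈ tp L (𝒱.map (· ∘ f)) := fun φ => by
    simp only [tp, Set.mem_ofPred_eq, rl]; rfl
  simp only [k]
  refine ⟨fun h => Set.ext fun φ => ⟨h φ, fun a => ?_⟩, fun h φ a => h ▸ a⟩
  by_contra c
  exact ((tp_type _).1 _).1 (h _ (((tp_type _).1 _).2 c)) a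

def pr (𝒳 : Ultrafilter (α → U)) (𝒬 : Ultrafilter (β → U)) : Ultrafilter (α ⊕ β → U) :=
  𝒳.bind fun v => 𝒬.map fun y => Sum.elim v y

theorem ev_pr {𝒳 : Ultrafilter (α → U)} {𝒬 : Ultrafilter (β → U)} {P : (α ⊕ β → U) → Prop} :
    (∀ᶠ v in pr 𝒳 𝒬, P v) ↔ ∀ᶠ v in 𝒳.toFilter, ∀ᶠ y in 𝒬.toFilter, P (Sum.elim v y) := Iff.rfl

theorem ext_pr (𝒳 : Ultrafilter (α → U)) (𝒬 : Ultrafilter (β → U)) :
    Extends (tp L (pr 𝒳 𝒬)) (tp L 𝒳) (tp L 𝒬) := by
  refine ⟨tp_type _, fun φ a => ev_pr.2 ?_, fun φ a => ev_pr.2 ?_⟩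
  · filter_upwards [a] with v hv
    exact Eventually.of_forall fun y => (rl _ _ _ _).2 hv
  · refine Eventually.of_forall fun v => ?_
    filter_upwards [a] with y hy
    exact (rl _ _ _ _).2 hy

theorem inv_map (𝒱 : Ultrafilter (α → U)) (g : U ≃[L] U) (φ : L.Formula (α ⊕ U)) :
    φ.relabel (Sum.map id g) ∈ tp L 𝒱 ↔ φ ∈ tp L (𝒱.map (g.symm ∘ ·)) := by
  simp only [tp, Set.mem_ofPred_eq, rl, Ultrafilter.coe_map, eventually_map]
  refine eventually_congr (Eventually.of_forall fun v => ?_)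
  rw [← StrongHomClass.realize_formula g (v := Sum.elim (g.symm ∘ v) id), iff_eq_eq]
  congr 1
  funext i
  cases i <;> simp

theorem tensor (𝒰 : Ultrafilter ℕ) (b : ℕ → α → U) (𝒬 : Ultrafilter (β → U)) {A : Set U}
    (hA : ∀ n i, b n i ∈ A) : IsTensor A (tp L (𝒰.map b)) (tp L 𝒬) (tp L (pr (𝒰.map b) 𝒬)) := by
  refine ⟨tp_type _, fun C φ y hy => ?_⟩
  simp only [tp, Set.mem_ofPred_eq, ev_pr, Ultrafilter.coe_map, eventually_map,
    Formula.realize_relabel]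
  refine eventually_congr (Eventually.of_forall fun n => ?_)
  let ψ : L.Formula (β ⊕ ↥(A ∪ C)) := φ.relabel (Sum.elim (Sum.elim
    (fun i => .inr ⟨b n i, .inl (hA n i)⟩) .inl) fun c => .inr ⟨c.1, .inr c.2⟩)
  have k : ∀ z : β → U, ψ.Realize (Sum.elim z Subtype.val) ↔
      φ.Realize (Sum.elim (Sum.elim (b n) z) id ∘ Sum.map id Subtype.val) := fun z => by
    rw [Formula.realize_relabel, iff_eq_eq]
    congr 1
    funext i
    rcases i with (i | i) | i <;> rfl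
  have k2 : ∀ χ : L.Formula (β ⊕ ↥(A ∪ C)), χ.relabel (Sum.map id Subtype.val) ∈ tp L 𝒬 ↔
      ∀ᶠ z in 𝒬.toFilter, χ.Realize (Sum.elim z Subtype.val) := fun χ => by
    simp only [tp, Set.mem_ofPred_eq, Formula.realize_relabel, Sum.elim_comp_map]; rfl
  simp only [← k]
  refine Iff.trans (b := ψ.Realize (Sum.elim y Subtype.val)) ⟨fun a => hy _ ((k2 _).2 a),
    fun a => ?_⟩ ((k y).trans ?_)
  · by_contra c
    refine Formula.realize_not.1 (hy ψ.not ((k2 _).2 ?_)) a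
    simpa only [Formula.realize_not, Ultrafilter.eventually_not] using c
  · rw [iff_eq_eq]
    congr 1
    funext i
    rcases i with (i | i) | i <;> rfl
end

section
variable {U : Type u} [BooleanAlgebra U] [Language.order.Structure U]
  [Language.order.OrderedStructure U] {α β : Type}

def th {γ : Type*} (i j k : γ) : Language.order.Formula γ :=
  BoundedFormula.all ((Term.le (.var (.inr 0)) (.var (.inl i))).imp
    ((Term.le (.var (.inr 0)) (.var (.inl j))).imp (Term.le (.var (.inr 0)) (.var (.inl k)))))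

theorem real_th {γ : Type*} (i j k : γ) (u : γ → U) : (th i j k).Realize u ↔ u i ⊓ u j ≤ u k := by
  simp only [th, Formula.Realize, BoundedFormula.realize_all, BoundedFormula.realize_imp,
    Term.realize_le, Term.realize_var, Sum.elim_inl, Sum.elim_inr]
  exact ⟨fun h => h (u i ⊓ u j) inf_le_left inf_le_right, fun h a x y => (le_inf x y).trans h⟩

theorem trf {𝒱 𝒲 : Ultrafilter (α → U)} (h : tp Language.order 𝒱 = tp Language.order 𝒲)
    (i j k : α ⊕ U) : (∀ᶠ v in 𝒱.toFilter, Sum.elim v id i ⊓ Sum.elim v id j ≤ Sum.elim v id k) ↔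
      ∀ᶠ v in 𝒲.toFilter, Sum.elim v id i ⊓ Sum.elim v id j ≤ Sum.elim v id k := by
  simpa only [tp, Set.mem_ofPred_eq, real_th] using Set.ext_iff.1 h (th i j k)

theorem tp_ext (H : ∀ a : U, ¬IsAtom a) [Fintype α] {𝒱 𝒲 : Ultrafilter (α → U)}
    (h : ∀ σ c, (∀ᶠ v in 𝒱.toFilter, atm v σ ⊓ c = ⊥) ↔ ∀ᶠ v in 𝒲.toFilter, atm v σ ⊓ c = ⊥) :
    tp Language.order 𝒱 = tp Language.order 𝒲 := by
  classical
  have k : ∀ {𝒱 𝒲 : Ultrafilter (α → U)},
      (∀ σ c, (∀ᶠ v in 𝒱.toFilter, atm v σ ⊓ c = ⊥) ↔ ∀ᶠ v in 𝒲.toFilter, atm v σ ⊓ c = ⊥) →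
      tp Language.order 𝒱 ⊆ tp Language.order 𝒲 := by
    intro 𝒱 𝒲 h φ a
    by_contra c
    have c' := ((tp_type _).1 _).2 c
    let C : Finset U := φ.freeVarFinset.preimage Sum.inr Sum.inr_injective.injOn
    obtain ⟨ψ, hψ⟩ : ∃ ψ : Language.order.Formula (α ⊕ C), ∀ v : α → U,
        ψ.Realize (Sum.elim v Subtype.val) ↔ φ.Realize (Sum.elim v id) := by
      refine ⟨φ.restrictFreeVar fun x => match x with
        | ⟨.inl i, _⟩ => .inl i
        | ⟨.inr x, a⟩ => .inr ⟨x, Finset.mem_preimage.2 a⟩, fun v => ?_⟩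
      exact BoundedFormula.realize_restrictFreeVar _ (by rintro ⟨i | x, a⟩ <;> rfl)
    let P (S : α ⊕ C → Bool) (v : α → U) := atm v (S ∘ .inl) ⊓ atm Subtype.val (S ∘ .inr) = ⊥
    have e : ∀ 𝒳 : Ultrafilter (α → U), ∀ᶠ v in 𝒳.toFilter, ∀ S, (P S v ↔ ∀ᶠ w in 𝒳.toFilter, P S w) := by
      intro 𝒳
      rw [eventually_all]
      intro S
      by_cases d : ∀ᶠ w in 𝒳.toFilter, P S w
      · filter_upwards [d] with v hv using by simp only [hv, d]
      · filter_upwards [Ultrafilter.eventually_not.2 d] with v hv using by simp only [hv, d]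
    obtain ⟨v, hv, hv'⟩ := ((e 𝒱).and a).exists
    obtain ⟨w, hw, hw'⟩ := ((e 𝒲).and c').exists
    have s : Sim (Sum.elim v (Subtype.val : C → U)) (Sum.elim w Subtype.val) := fun S => by
      rw [atm_sum, atm_sum]
      exact (hv S).trans ((h _ _).trans (hw S).symm)
    have := qe H ψ _ _ _ id Fin.elim0 s
    rw [Subsingleton.elim (_ ∘ Fin.elim0) default, Subsingleton.elim (_ ∘ Fin.elim0) default]
      at this
    exact Formula.realize_not.1 hw' ((hψ w).1 (this.1 ((hψ v).2 hv')))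
  exact (k h).antisymm (k fun σ c => (h σ c).symm)

def QY (𝒱 : Ultrafilter (α → U)) (y : α) : Prop :=
  ∀ c, c ≠ ⊥ → ∀ s, ∀ᶠ v in 𝒱.toFilter, c ⊓ sg s (v y) ≠ ⊥

def PX (b : ℕ → U) (𝒱 : Ultrafilter (α → U)) (x : α) : Prop :=
  (∀ n, ∀ᶠ v in 𝒱.toFilter, b n ≤ v x) ∧ ∀ d, (∀ n, d ⊓ b n = ⊥) → ∀ᶠ v in 𝒱.toFilter, d ⊓ v x = ⊥

theorem QY.tr {𝒱 𝒲 : Ultrafilter (α → U)} {y : α} (a : QY 𝒱 y)
    (h : tp Language.order 𝒱 = tp Language.order 𝒲) : QY 𝒲 y := by
  intro c hc s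
  have := a c hc s
  rw [Ultrafilter.eventually_not] at this ⊢
  cases s
  · have k := trf h (.inr c) (.inr c) (.inl y)
    simp only [sg, cond_false, ← sdiff_eq, sdiff_eq_bot_iff] at this ⊢
    simp only [Sum.elim_inl, Sum.elim_inr, id, inf_idem] at k
    rwa [← k]
  · have k := trf h (.inr c) (.inl y) (.inr ⊥)
    simp only [Sum.elim_inl, Sum.elim_inr, id, le_bot_iff] at k
    exact mt k.2 this

theorem PX.tr {b : ℕ → U} {𝒱 𝒲 : Ultrafilter (α → U)} {x : α} (a : PX b 𝒱 x)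
    (h : tp Language.order 𝒱 = tp Language.order 𝒲) : PX b 𝒲 x := by
  refine ⟨fun n => ?_, fun d hd => ?_⟩
  · simpa using (trf h (.inr (b n)) (.inr (b n)) (.inl x)).1 (by simpa using a.1 n)
  · simpa using (trf h (.inr d) (.inl x) (.inr ⊥)).1 (by simpa using a.2 d hd)

omit [Language.order.Structure U] [Language.order.OrderedStructure U] in
theorem atm_unit (v : Unit → U) (σ : Unit → Bool) : atm v σ = sg (σ ()) (v ()) := by
  simp [atm]

theorem uniq (H : ∀ a : U, ¬IsAtom a) {𝒱 𝒲 : Ultrafilter (Unit → U)} (a : QY 𝒱 ())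
    (b : QY 𝒲 ()) : tp Language.order 𝒱 = tp Language.order 𝒲 := by
  have k : ∀ {𝒱 : Ultrafilter (Unit → U)}, QY 𝒱 () → ∀ σ c,
      (∀ᶠ v in 𝒱.toFilter, atm v σ ⊓ c = ⊥) ↔ c = ⊥ := by
    intro 𝒱 a σ c
    refine ⟨fun h => ?_, fun h => by simp [h]⟩
    by_contra d
    obtain ⟨v, h1, h2⟩ := (h.and (a c d (σ ()))).exists
    exact h2 (by rwa [atm_unit, inf_comm] at h1)
  exact tp_ext H fun σ c => (k a σ c).trans (k b σ c).symm

omit [Language.order.Structure U] [Language.order.OrderedStructure U] in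
theorem key {b : ℕ → U} (HS : ∀ c, (∀ n, ¬c ≤ b n) → ∃ d, d ≠ ⊥ ∧ d ≤ c ∧ ∀ n, d ⊓ b n = ⊥)
    {𝒱 : Ultrafilter (α → U)} {x y : α} (hx : PX b 𝒱 x) (hy : QY 𝒱 y) (s t : Bool) (c : U) :
    (∀ᶠ v in 𝒱.toFilter, sg s (v x) ⊓ sg t (v y) ⊓ c = ⊥) ↔
      cond s (∀ n, c ⊓ b n = ⊥) (∃ n, c ≤ b n) := by
  have k : ∀ d, d ≤ c → (∀ᶠ v in 𝒱.toFilter, d ≤ sg s (v x)) →
      (∀ᶠ v in 𝒱.toFilter, sg s (v x) ⊓ sg t (v y) ⊓ c = ⊥) → d = ⊥ := by
    intro d h1 h2 h3
    by_contra e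
    obtain ⟨v, ⟨h4, h5⟩, h6⟩ := ((h2.and h3).and (hy d e t)).exists
    exact h6 (le_bot_iff.1 ((le_inf (inf_le_inf_right _ h4) (inf_le_left.trans h1)).trans h5.le))
  cases s
  · refine ⟨fun h => ?_, fun ⟨n, h⟩ => ?_⟩
    · by_contra e
      obtain ⟨d, h1, h2, h3⟩ := HS c (not_exists.1 e)
      refine h1 (k d h2 ?_ h)
      filter_upwards [hx.2 d h3] with v hv using le_compl_iff_disjoint_right.2 (disjoint_iff.2 hv)
    · filter_upwards [hx.1 n] with v hv
      exact le_bot_iff.1 ((inf_le_inf inf_le_left (h.trans hv)).trans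
        (sg_disj (b := false) (c := true) (by simp) _).le)
  · refine ⟨fun h n => k _ inf_le_left ?_ h, fun h => ?_⟩
    · filter_upwards [hx.1 n] with v hv using inf_le_right.trans hv
    · filter_upwards [hx.2 c h] with v hv
      exact le_bot_iff.1 ((le_inf inf_le_right (inf_le_left.trans inf_le_left)).trans hv.le)

theorem sat (h : Saturated Language.order U) {b : ℕ → U} (hb : Monotone b) (c : U)
    (hc : ∀ n, ¬c ≤ b n) : ∃ d, d ≠ ⊥ ∧ d ≤ c ∧ ∀ n, d ⊓ b n = ⊥ := by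
  let ψ (n : ℕ) : Language.order.Formula (Unit ⊕ U) := (th (.inl ()) (.inl ()) (.inr ⊥)).not ⊓
    (th (.inl ()) (.inl ()) (.inr c) ⊓ th (.inl ()) (.inr (b n)) (.inr ⊥))
  have k : ∀ n (v : Unit → U), (ψ n).Realize (Sum.elim v id) ↔
      v () ≠ ⊥ ∧ v () ≤ c ∧ v () ⊓ b n = ⊥ := fun n v => by
    simp [ψ, real_th]
  obtain ⟨v, hv⟩ := h (Set.range ψ) (Set.countable_range _) fun s hs a => by
    obtain ⟨T, -, hT, rfl⟩ := Set.Finite.exists_subset_finite_image_eq hs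
      (by rwa [Set.image_univ] : s ⊆ ψ '' Set.univ)
    obtain ⟨N, hN⟩ := hT.bddAbove
    refine ⟨fun _ => c \ b N, ?_⟩
    rintro _ ⟨n, hn, rfl⟩
    refine (k _ _).2 ⟨fun e => hc N (sdiff_eq_bot_iff.1 e), sdiff_le, le_bot_iff.1 ?_⟩
    exact (inf_le_inf_left _ (hb (hN hn))).trans (inf_sdiff_self_left).le
  have := fun n => (k n v).1 (hv _ ⟨n, rfl⟩)
  exact ⟨v (), (this 0).1, (this 0).2.1, fun n => (this n).2.2⟩

omit [Language.order.Structure U] [Language.order.OrderedStructure U] in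
theorem chain [Nontrivial U] (H : ∀ a : U, ¬IsAtom a) : ∃ b : ℕ → U, StrictMono b := by
  choose f h1 h2 using cut H
  have k : ∀ n, f^[n] ⊤ ≠ ⊥ := fun n => by
    induction n with
    | zero => exact top_ne_bot
    | succ n ih => rw [Function.iterate_succ_apply']; exact (h2 _ ih).1
  refine ⟨fun n => (f^[n] ⊤)ᶜ, strictMono_nat_of_lt_succ fun n => compl_lt_compl_iff_lt.2 ?_⟩
  rw [Function.iterate_succ_apply']
  refine (h1 _).lt_of_ne fun e => (h2 _ (k n)).2 ?_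
  rw [e, compl_inf_eq_bot]

theorem main [Nontrivial U] (H : ∀ a : U, ¬IsAtom a) (h : Saturated Language.order U) :
    ∃ (A : Set U) (p₀ p₁ q : Set (Language.order.Formula (Unit ⊕ U)))
      (r : Set (Language.order.Formula ((Unit ⊕ Unit) ⊕ U))), A.Countable ∧
      IsType p₀ ∧ IsType p₁ ∧ IsType q ∧ Inv A p₀ ∧ Inv A p₁ ∧ Inv A q ∧ IsTensor A p₀ p₁ r ∧
      WOrth p₀ q ∧ WOrth p₁ q ∧ ¬WOrth r q := by
  classical
  obtain ⟨b, hb⟩ := chain H
  choose y hy using splits H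
  let 𝒰 := Ultrafilter.of (atTop : Filter ℕ)
  let 𝒲 := Ultrafilter.of (atTop : Filter (Finset U))
  have hU : ∀ n, ∀ᶠ m in 𝒰.toFilter, n < m := fun n => (Ultrafilter.of_le _) (eventually_gt_atTop n)
  have hW : ∀ c, ∀ᶠ F : Finset U in 𝒲, c ∈ F := fun c => (Ultrafilter.of_le _) (by
    filter_upwards [eventually_ge_atTop ({c} : Finset U)] with s hs
    exact hs (Finset.mem_singleton_self _))
  let 𝒳 : Ultrafilter (Unit → U) := 𝒰.map fun n _ => b n
  let 𝒬 : Ultrafilter (Unit → U) := 𝒲.map fun F _ => y F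
  have hX : PX b 𝒳 () := ⟨fun n => (hU n).mono fun m a => (hb a).le,
    fun d hd => eventually_map.2 (Eventually.of_forall hd)⟩
  have hQ : QY 𝒬 () := fun c hc s => (hW c).mono fun F a => hy F c a hc s
  have iX : Inv (Set.range b) (tp Language.order 𝒳) := fun g hg φ => by
    rw [inv_map, Ultrafilter.map_map]
    congr! 3
    funext n _
    exact g.injective (by simp [hg _ ⟨n, rfl⟩])
  have wo : WOrth (tp Language.order 𝒳) (tp Language.order 𝒬) := by
    refine existsUnique_of_exists_of_unique ⟨_, ext_pr _ _⟩ fun r r' a a' => ?_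
    obtain ⟨𝒱, rfl⟩ := type_tp a.1
    obtain ⟨𝒱', rfl⟩ := type_tp a'.1
    refine tp_ext H fun σ c => ?_
    have e : ∀ v : Unit ⊕ Unit → U, atm v σ =
        sg (σ (.inl ())) (v (.inl ())) ⊓ sg (σ (.inr ())) (v (.inr ())) := fun v =>
      eq_of_forall_le_iff fun z => by simp [le_atm, Unique.forall_iff]
    simp only [e]
    have k : ∀ 𝒱, Extends (tp Language.order 𝒱) (tp Language.order 𝒳) (tp Language.order 𝒬) →
        PX b 𝒱 (.inl ()) ∧ QY 𝒱 (.inr ()) := fun 𝒱 a =>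
      ⟨hX.tr (proj.1 a.2.1), hQ.tr (proj.1 a.2.2)⟩
    exact (key (sat h hb.monotone) (k _ a).1 (k _ a).2 _ _ _).trans
      (key (sat h hb.monotone) (k _ a').1 (k _ a').2 _ _ _).symm
  refine ⟨Set.range b, tp _ 𝒳, tp _ 𝒳, tp _ 𝒬, tp _ (pr 𝒳 𝒳), Set.countable_range _, tp_type _,
    tp_type _, tp_type _, iX, iX, fun g _ φ => ?_, tensor 𝒰 _ _ fun n _ => ⟨n, rfl⟩, wo, wo,
    fun w => ?_⟩
  · rw [inv_map, uniq H (𝒱 := 𝒬.map (g.symm ∘ ·)) ?_ hQ]
    let := StrongHomClass.toOrderIsoClass Language.order U U (U ≃[Language.order] U)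
    intro c hc s
    refine (hQ (g c) (fun e => hc (g.injective (e.trans (map_bot g).symm))) s).mono
      fun v a e => a ?_
    have := congrArg g e
    cases s <;> simpa [sg, map_compl'] using this
  let z (v : Unit ⊕ Unit → U) := v (.inr ()) \ v (.inl ())
  let Y (F : Finset U) (v : Unit ⊕ Unit → U) := y (F.image (· \ z v)) \ z v
  let 𝒵 : Ultrafilter ((Unit ⊕ Unit) ⊕ Unit → U) :=
    𝒲.bind fun F => (pr 𝒳 𝒳).map fun v => Sum.elim v fun _ => Y F v
  have hZ : ∀ P : _ → Prop, (∀ᶠ v in 𝒵.toFilter, P v) ↔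
      ∀ᶠ F in 𝒲.toFilter, ∀ᶠ v in (pr 𝒳 𝒳).toFilter, P (Sum.elim v fun _ => Y F v) := fun _ => Iff.rfl
  have hP : ∀ P : _ → Prop, (∀ᶠ v in (pr 𝒳 𝒳).toFilter, P v) ↔
      ∀ᶠ n in 𝒰.toFilter, ∀ᶠ m in 𝒰.toFilter, P (Sum.elim (fun _ => b n) fun _ => b m) := fun _ => Iff.rfl
  have e := w.unique (ext_pr _ _) (y₂ := tp _ 𝒵) ⟨tp_type _, fun φ a => (hZ _).2
    (Eventually.of_forall fun F => by
      filter_upwards [a] with v hv using (rl _ _ _ _).2 hv), proj.2 (uniq H hQ ?_)⟩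
  · have k := (trf e (.inl (.inr ())) (.inl (.inl (.inr ()))) (.inl (.inl (.inl ())))).2
      ((hZ _).2 (Eventually.of_forall fun F => Eventually.of_forall fun v => ?_))
    · obtain ⟨n, hn⟩ := ((hP _).1 (ev_pr.1 k)).exists
      obtain ⟨m, h1, h2⟩ := (hn.and (hU n)).exists
      obtain ⟨v, h3, h4⟩ := (h1.and (hQ (b m \ b n)
        (fun e => (hb h2).not_ge (sdiff_eq_bot_iff.1 e)) true)).exists
      refine h4 (le_bot_iff.1 ?_)
      refine (le_inf inf_le_left ((le_inf inf_le_right (inf_le_left.trans sdiff_le)).trans h3)).trans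
        inf_sdiff_self_left.le
    · change Y F v ⊓ v (.inr ()) ≤ v (.inl ())
      rw [← sdiff_eq_bot_iff, inf_sdiff_assoc]
      exact inf_sdiff_self_left
  intro c hc s
  refine (hZ _).2 ((hW c).mono fun F a => ?_)
  have : ∀ᶠ v in (pr 𝒳 𝒳).toFilter, c \ z v ≠ ⊥ := by
    rw [hP]
    by_cases d : ∀ n, c ⊓ b n = ⊥
    · refine Eventually.of_forall fun n => Eventually.of_forall fun m e => hc ?_
      exact le_bot_iff.1 ((le_inf le_rfl ((sdiff_eq_bot_iff.1 e).trans sdiff_le)).trans (d m).le)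
    · obtain ⟨k, hk⟩ := not_forall.1 d
      refine (hU k).mono fun n a => Eventually.of_forall fun m e => hk ?_
      exact le_bot_iff.1 ((inf_le_inf (sdiff_eq_bot_iff.1 e) (hb a).le).trans
        inf_sdiff_self_left.le)
  refine this.mono fun v d e => hy _ _ (Finset.mem_image_of_mem (· \ z v) a) d s ?_
  refine le_bot_iff.1 (le_trans ?_ e.le)
  cases s
  · exact inf_le_inf sdiff_le (compl_le_compl sdiff_le)
  · exact le_inf (inf_le_left.trans sdiff_le) (le_sdiff.2 ⟨inf_le_right,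
      disjoint_sdiff_self_left.mono_left inf_le_left⟩)
end

instance {ι β : Type} (l : Filter ι) [BooleanAlgebra β] : ComplementedLattice (Germ l β) :=
  ⟨fun a => Germ.inductionOn a fun f => ⟨(fᶜ : ι → β), IsCompl.of_le
    (Eventually.of_forall fun _ => inf_compl_eq_bot.le)
    (Eventually.of_forall fun _ => sup_compl_eq_top.ge)⟩⟩

noncomputable instance {ι β : Type} (l : Filter ι) [BooleanAlgebra β] :
    BooleanAlgebra (Germ l β) := DistribLattice.booleanAlgebraOfComplemented _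

theorem base (a : Germ (atTop : Filter ℕ) Prop) : ¬IsAtom a := by
  induction a using Germ.inductionOn with | _ f => ?_
  intro h
  have : ∃ᶠ n in atTop, f n := fun e => h.1 (le_bot_iff.1 (e.mono fun _ x => x))
  obtain ⟨φ, h1, h2⟩ := extraction_of_frequently_atTop this
  have k : ∀ g : ℕ → ℕ, StrictMono g → ∀ P : ℕ → Prop, (∀ᶠ n in atTop, P n) → ∃ n, P (φ (g n)) :=
    fun g hg P e => ((h1.comp hg).tendsto_atTop.eventually e).exists
  have := h.2 (fun n => ∃ m, φ (2 * m) = n : ℕ → Prop) (lt_of_le_not_ge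
    (Eventually.of_forall fun n ⟨m, e⟩ => e ▸ h2 _) fun e => by
      obtain ⟨n, hn⟩ := k (2 * · + 1) (fun _ _ _ => by simp only; omega) _ e
      obtain ⟨m, hm⟩ := hn (h2 _)
      have := h1.injective hm
      omega)
  obtain ⟨n, hn⟩ := k (2 * ·) (fun _ _ _ => by simp only; omega) _ this.le
  exact hn ⟨n, rfl⟩

theorem upow {β : Type} [BooleanAlgebra β] (H : ∀ a : β, ¬IsAtom a) (𝒰 : Ultrafilter ℕ)
    (a : Germ 𝒰.toFilter β) : ¬IsAtom a := by
  induction a using Germ.inductionOn with | _ f => ?_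
  intro h
  choose g h1 h2 using fun n => cut H (f n)
  have k : ∀ᶠ n in 𝒰.toFilter, f n ≠ ⊥ :=
    Ultrafilter.eventually_not.2 fun e => h.1 (Germ.coe_eq.2 e)
  have := h.2 g (lt_of_le_not_ge (Eventually.of_forall h1) fun e => by
    obtain ⟨n, a, b⟩ := (k.and e).exists
    exact (h2 n a).2 (by rwa [inf_comm, ← sdiff_eq, sdiff_eq_bot_iff]))
  obtain ⟨n, a, b⟩ := (k.and (Germ.coe_eq.1 this)).exists
  exact (h2 n a).1 b

theorem usat {L : FirstOrder.Language.{0, 0}} (B : Type) [L.Structure B] [Nonempty B]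
    (𝒰 : Ultrafilter ℕ) (hU : 𝒰.toFilter ≤ atTop) :
    Saturated L (𝒰.toFilter.Product fun _ => B) := by
  classical
  intro s hs a
  rcases s.eq_empty_or_nonempty with rfl | hn
  · exact (a ∅ Set.finite_empty le_rfl).imp fun _ _ _ x => x.elim
  obtain ⟨ψ, rfl⟩ := hs.exists_eq_range hn
  let r (c : 𝒰.toFilter.Product fun _ => B) : ℕ → B := Quotient.out c
  have los : ∀ (φ : L.Formula (Unit ⊕ 𝒰.toFilter.Product fun _ => B)) (x : ℕ → B),
      φ.Realize (Sum.elim (fun _ => (x : 𝒰.toFilter.Product fun _ => B)) id) ↔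
      ∀ᶠ i in 𝒰.toFilter, φ.Realize (Sum.elim (fun _ => x i) (r · i)) := fun φ x => by
    have := Ultraproduct.realize_formula_cast (u := 𝒰) φ (Sum.elim (fun _ => x) r)
    refine Iff.trans ?_ (this.trans ?_)
    · rw [iff_eq_eq]
      congr 1
      funext i
      cases i
      exacts [rfl, (Quotient.out_eq _).symm]
    · refine eventually_congr (Eventually.of_forall fun n => ?_)
      rw [iff_eq_eq]
      congr 1
      funext i
      cases i <;> rfl
  let G (i n : ℕ) := ∃ x : B, ∀ k ≤ n, (ψ k).Realize (Sum.elim (fun _ => x) (r · i))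
  have hG : ∀ n, ∀ᶠ i in 𝒰.toFilter, G i n := fun n => by
    obtain ⟨v, hv⟩ := a (ψ '' Set.Iic n) (Set.toFinite _) (Set.image_subset_range _ _)
    have : ∀ k ∈ Set.Iic n, ∀ᶠ i in 𝒰.toFilter,
        (ψ k).Realize (Sum.elim (fun _ => r (v ()) i) (r · i)) := fun k hk => by
      refine (los _ _).1 ?_
      have e : (fun _ => ((r (v ()) : ℕ → B) : 𝒰.toFilter.Product fun _ => B)) = v :=
        funext fun _ => Quotient.out_eq _
      rw [e]
      exact hv _ ⟨k, hk, rfl⟩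
    exact ((eventually_all_finite (Set.finite_Iic n)).2 this).mono fun i h => ⟨_, h⟩
  have : ∀ i, ∃ x : B, ∀ k ≤ i, G i k → (ψ k).Realize (Sum.elim (fun _ => x) (r · i)) := by
    intro i
    by_cases e : ∃ k ≤ i, G i k
    · obtain ⟨k, h1, h2⟩ := e
      obtain ⟨x, hx⟩ := Nat.findGreatest_spec h1 h2
      exact ⟨x, fun k a b => hx k (Nat.le_findGreatest a b)⟩
    · exact ⟨Classical.arbitrary B, fun k a b => (e ⟨k, a, b⟩).elim⟩
  choose x hx using this
  refine ⟨fun _ => x, ?_⟩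
  rintro _ ⟨k, rfl⟩
  refine (los _ _).2 ?_
  filter_upwards [hG k, hU (eventually_ge_atTop k)] with i a b using hx i k b a

theorem result :
    (∃ (U : Type) (_ : BooleanAlgebra U) (_ : Language.order.Structure U),
      Language.order.OrderedStructure U ∧ Nontrivial U ∧ (∀ a : U, ¬IsAtom a) ∧
        Saturated Language.order U) ∧
    ∀ (U : Type u) [BooleanAlgebra U] [Language.order.Structure U]
      [Language.order.OrderedStructure U], Nontrivial U → (∀ a : U, ¬IsAtom a) →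
      Saturated Language.order U →
      ∃ (A : Set U) (p₀ p₁ q : Set (Language.order.Formula (Unit ⊕ U)))
        (r : Set (Language.order.Formula ((Unit ⊕ Unit) ⊕ U))), A.Countable ∧
        IsType p₀ ∧ IsType p₁ ∧ IsType q ∧ Inv A p₀ ∧ Inv A p₁ ∧ Inv A q ∧ IsTensor A p₀ p₁ r ∧
        WOrth p₀ q ∧ WOrth p₁ q ∧ ¬WOrth r q := by
  refine ⟨?_, fun U _ _ _ _ => main⟩
  let B := Germ (atTop : Filter ℕ) Prop
  let : Language.order.Structure B := orderStructure B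
  let 𝒰 := Ultrafilter.of (atTop : Filter ℕ)
  refine ⟨Germ 𝒰.toFilter B, inferInstance,
    (inferInstance : Language.order.Structure (𝒰.toFilter.Product fun _ => B)), ?_,
    inferInstance, upow base 𝒰, usat B 𝒰 (Ultrafilter.of_le _)⟩
  refine @OrderedStructure.mk _ _ _ _ (_) fun x => ?_
  obtain ⟨y, rfl⟩ : ∃ y : Fin 2 → ℕ → B, x = fun i => (y i : Germ 𝒰.toFilter B) :=
    ⟨fun i => Quotient.out (x i), funext fun i => (Quotient.out_eq _).symm⟩
  exact @relMap_quotient_mk' _ _ _ (Ultraproduct.setoidPrestructure (fun _ => B) 𝒰) _ _ y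

end Pool.Agent.Results.MP_f8e4dc_lc.No
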